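import Pool.Agent.Helper43_HAM.Stmts

/-!
# Squad HAM, module BOO: every Boolean function can be computed
-/

namespace Pool.Agent.HAM.H64

open Pool.Agent.HAM

section

variable {Ω : Type} [Fintype Ω] [DecidableEq Ω]

/-- `g` can be computed in the presence of the wires `X`. -/
def Cp (X : List (Ω → Bool)) (g : Ω → Bool) : Prop :=
  ∀ W : List (Ω → Fin 3), Tr (id : Ω → Ω) (refs ++ (X.map bit ++ W))
    (refs ++ (X.map bit ++ (W ++ [bit g])))

theorem tr_comp (hTco : TcoStmt) {U U' U'' : List (Ω → Fin 3)} (h : Tr (id : Ω → Ω) U U')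
    (h' : Tr (id : Ω → Ω) U' U'') : Tr (id : Ω → Ω) U U'' :=
  hTco Ω Ω Ω id id _ _ _ h h'

theorem tr_ctx (hTcx : TcxStmt) {U U' : List (Ω → Fin 3)} (R : List (Ω → Fin 3))
    (h : Tr (id : Ω → Ω) U U') : Tr (id : Ω → Ω) (U ++ R) (U' ++ R) := by
  have h1 := hTcx Ω Ω id U [] R U' h
  simpa using h1

omit [Fintype Ω] [DecidableEq Ω] in
theorem refs_len : (refs (Ω := Ω)).length = 3 := rfl

/-- A gate applied to wires which occur anywhere. -/
theorem gate (hTco : TcoStmt) (hTcx : TcxStmt) (hTpe : TpeStmt) {U U' V V' R : List (Ω → Fin 3)}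
    (h : Tr (id : Ω → Ω) (refs ++ U) (refs ++ U')) (h1 : V.Perm (refs ++ (U ++ R)))
    (h2 : V'.Perm (refs ++ (U' ++ R))) : Tr (id : Ω → Ω) V V' := by
  have e1 : 2 ≤ V.length := by
    rw [h1.length_eq, List.length_append, refs_len]; omega
  have e2 : 2 ≤ (refs ++ (U' ++ R)).length := by
    rw [List.length_append, refs_len]; omega
  have t1 := hTpe Ω _ _ h1 e1
  have t2 := tr_ctx hTcx R h
  rw [List.append_assoc, List.append_assoc] at t2
  exact tr_comp hTco t1 (tr_comp hTco t2 (hTpe Ω _ _ h2.symm e2))

theorem perm_aux {α : Type} (A B C D : List α) (h : B.Perm (C ++ D)) :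
    (A ++ B).Perm (A ++ (C ++ D)) := h.append_left A

theorem cp_mem (hTco : TcoStmt) (hTcx : TcxStmt) (hTpe : TpeStmt) (hGat : GatStmt)
    (X : List (Ω → Bool)) {x : Ω → Bool} (hx : x ∈ X) : Cp X x := by
  intro W
  obtain ⟨s, t, rfl⟩ := List.mem_iff_append.mp hx
  refine gate hTco hTcx hTpe (hGat Ω x x).1 (R := s.map bit ++ (t.map bit ++ W)) ?_ ?_
  · apply List.Perm.append_left
    rw [List.map_append, List.map_cons, List.append_assoc]
    exact List.perm_middle
  · apply List.Perm.append_left
    rw [List.map_append, List.map_cons, List.append_assoc, List.cons_append]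
    refine List.perm_middle.trans ?_
    refine List.Perm.cons _ ?_
    rw [← List.append_assoc, ← List.append_assoc]
    refine (List.perm_append_singleton _ _).trans ?_
    rw [List.append_assoc]
    exact List.Perm.refl _

theorem cp_not (hTco : TcoStmt) (hTcx : TcxStmt) (hTpe : TpeStmt) (hGat : GatStmt)
    (X : List (Ω → Bool)) {x : Ω → Bool} (hx : Cp X x) : Cp X fun ω => !x ω := by
  intro W
  refine tr_comp hTco (hx W) ?_
  refine gate hTco hTcx hTpe (hGat Ω x x).2.1 (R := X.map bit ++ W) ?_ ?_
  · apply List.Perm.append_left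
    rw [← List.append_assoc]
    exact List.perm_append_singleton _ _
  · apply List.Perm.append_left
    rw [← List.append_assoc]
    exact List.perm_append_singleton _ _

theorem cp_or (hTco : TcoStmt) (hTcx : TcxStmt) (hTpe : TpeStmt) (hGat : GatStmt)
    (X : List (Ω → Bool)) {x y : Ω → Bool} (hx : Cp X x) (hy : Cp X y) :
    Cp X fun ω => x ω || y ω := by
  intro W
  refine tr_comp hTco (hx W) (tr_comp hTco (hy (W ++ [bit x])) ?_)
  refine gate hTco hTcx hTpe (hGat Ω x y).2.2.1 (R := X.map bit ++ W) ?_ ?_
  · apply List.Perm.append_left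
    rw [List.append_assoc, ← List.append_assoc]
    exact List.perm_append_comm
  · apply List.Perm.append_left
    rw [← List.append_assoc]
    exact List.perm_append_singleton _ _

theorem cp_true (hTco : TcoStmt) (hTcx : TcxStmt) (hTpe : TpeStmt) (hGat : GatStmt)
    (X : List (Ω → Bool)) : Cp X fun _ => true := by
  intro W
  have h := (hGat Ω (fun _ => true) (fun _ => true)).2.2.2.2
  refine gate hTco hTcx hTpe (U := []) (U' := [bit fun _ => true]) (by simpa using h)
    (R := X.map bit ++ W) ?_ ?_
  · exact List.Perm.refl _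
  · apply List.Perm.append_left
    rw [← List.append_assoc]
    exact List.perm_append_singleton _ _

theorem cp_and (hTco : TcoStmt) (hTcx : TcxStmt) (hTpe : TpeStmt) (hGat : GatStmt)
    (X : List (Ω → Bool)) {x y : Ω → Bool} (hx : Cp X x) (hy : Cp X y) :
    Cp X fun ω => x ω && y ω := by
  have h := cp_not hTco hTcx hTpe hGat X (cp_or hTco hTcx hTpe hGat X
    (cp_not hTco hTcx hTpe hGat X hx) (cp_not hTco hTcx hTpe hGat X hy))
  have e : (fun ω => !(!x ω || !y ω)) = fun ω => x ω && y ω := by
    funext ω
    cases x ω <;> cases y ω <;> rfl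
  rw [e] at h
  exact h

end

theorem boo (hTco : TcoStmt) (hTcx : TcxStmt) (hTpe : TpeStmt) (hGat : GatStmt) : BooStmt := by
  intro Ω _ _ X g hX
  have hatom : ∀ (ω₀ : Ω) (Y : List (Ω → Bool)), (∀ y ∈ Y, y ∈ X) →
      Cp X fun ω => Y.all fun x => x ω == x ω₀ := by
    intro ω₀ Y
    induction Y with
    | nil => exact fun _ => cp_true hTco hTcx hTpe hGat X
    | cons y Y ih =>
      intro hY
      have h1 := ih fun z hz => hY z (List.mem_cons_of_mem _ hz)
      have h2 := cp_mem hTco hTcx hTpe hGat X (hY y List.mem_cons_self)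
      have h3 : Cp X fun ω => y ω == y ω₀ := by
        cases hy : y ω₀ with
        | true =>
          have e : (fun ω => y ω == true) = y := by
            funext ω
            cases y ω <;> rfl
          rw [e]; exact h2
        | false =>
          have e : (fun ω => y ω == false) = fun ω => !y ω := by
            funext ω
            cases y ω <;> rfl
          rw [e]; exact cp_not hTco hTcx hTpe hGat X h2
      exact cp_and hTco hTcx hTpe hGat X h3 h1
  have hany : ∀ l : List Ω, Cp X fun ω => l.any fun ω₀ => X.all fun x => x ω == x ω₀ := by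
    intro l
    induction l with
    | nil =>
      exact cp_not hTco hTcx hTpe hGat X (cp_true hTco hTcx hTpe hGat X)
    | cons ω₀ l ih =>
      exact cp_or hTco hTcx hTpe hGat X (hatom ω₀ X fun _ h => h) ih
  have hg : (fun ω => ((Finset.univ : Finset Ω).toList.filter fun ω₀ => g ω₀).any
      fun ω₀ => X.all fun x => x ω == x ω₀) = g := by
    funext ω
    cases hgω : g ω with
    | true =>
      rw [List.any_eq_true]
      refine ⟨ω, ?_, ?_⟩
      · rw [List.mem_filter]
        exact ⟨Finset.mem_toList.mpr (Finset.mem_univ _), hgω⟩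
      · rw [List.all_eq_true]
        intro x _
        exact beq_self_eq_true _
    | false =>
      rw [List.any_eq_false]
      intro ω₀ h0 h1
      rw [List.mem_filter] at h0
      rw [List.all_eq_true] at h1
      have h2 : ω = ω₀ := hX ω ω₀ fun x hx => by
        have := h1 x hx
        exact beq_iff_eq.mp this
      rw [← h2, hgω] at h0
      exact absurd h0.2 (by simp)
  have h := hany ((Finset.univ : Finset Ω).toList.filter fun ω₀ => g ω₀) []
  rw [hg] at h
  simpa using h

end Pool.Agent.HAM.H64
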