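import Pool.Agent.Helper43_HAM.Stmts

/-!
# Squad HAM, module HIN: cube insertion preserves plane hypermaps
-/

namespace Pool.Agent.HAM.H64

set_option linter.unusedVariables false

open Equiv Pool.Agent.HAM

/-! ### Numbers of cycles -/

theorem cyc_conj {D D' : Type} (π : Perm D) (π' : Perm D') (e : D ≃ D')
    (h : ∀ x, e (π x) = π' (e x)) : cyc π' = cyc π := by
  have hp : ∀ (k : ℕ) x, e ((π ^ k) x) = (π' ^ k) (e x) := by
    intro k
    induction k with
    | zero => intro x; rfl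
    | succ k ih => intro x; rw [pow_succ, pow_succ, Perm.mul_apply, Perm.mul_apply, ih, h]
  have hz : ∀ (k : ℤ) x, e ((π ^ k) x) = (π' ^ k) (e x) := by
    intro k x
    cases k with
    | ofNat n => simpa using hp n x
    | negSucc n =>
      rw [zpow_negSucc, zpow_negSucc, Perm.eq_inv_iff_eq, ← hp]
      congr 1
      exact (π ^ (n + 1)).apply_symm_apply x
  apply Nat.card_congr
  refine (Quotient.congr (ra := Perm.SameCycle.setoid π) (rb := Perm.SameCycle.setoid π') e ?_).symm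
  intro a b
  constructor
  · rintro ⟨k, rfl⟩
    exact ⟨k, (hz k a).symm⟩
  · rintro ⟨k, hk⟩
    refine ⟨k, e.injective ?_⟩
    rw [hz]
    exact hk

/-- A permutation of `D`, extended by three fixed points. -/
def ext3 {D : Type} (π : Perm D) : Perm (D ⊕ Fin 3) := Perm.sumCongr π 1

theorem ext3_inl {D : Type} (π : Perm D) (d : D) : ext3 π (.inl d) = .inl (π d) := rfl

theorem ext3_inr {D : Type} (π : Perm D) (i : Fin 3) : ext3 π (.inr i) = .inr i := rfl

theorem ext3_zpow {D : Type} (π : Perm D) (k : ℤ) : ext3 π ^ k = ext3 (π ^ k) := by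
  have h : ∀ ρ : Perm D, ext3 ρ = Perm.sumCongrHom D (Fin 3) (ρ, 1) := fun ρ => rfl
  rw [h, h, ← map_zpow]
  congr 1
  ext1
  · rfl
  · exact one_zpow k

theorem cyc_ext3 {D : Type} [Finite D] (π : Perm D) : cyc (ext3 π) = cyc π + 3 := by
  have h1 : cyc π + 3 = Nat.card (Quotient (Perm.SameCycle.setoid π) ⊕ Fin 3) := by
    rw [Nat.card_sum, Nat.card_fin]
    rfl
  rw [h1]
  let F : D ⊕ Fin 3 → Quotient (Perm.SameCycle.setoid π) ⊕ Fin 3 :=
    Sum.map (fun d => Quotient.mk _ d) id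
  have hF : ∀ x y, (Perm.SameCycle.setoid (ext3 π)).r x y → F x = F y := by
    rintro x y ⟨k, hk⟩
    rw [ext3_zpow] at hk
    rcases x with d | i
    · rw [ext3_inl] at hk
      subst hk
      have : (Quotient.mk (Perm.SameCycle.setoid π) d) = Quotient.mk _ ((π ^ k) d) :=
        Quotient.sound ⟨k, rfl⟩
      exact congrArg Sum.inl this
    · rw [ext3_inr] at hk
      subst hk
      rfl
  apply Nat.card_eq_of_bijective (Quotient.lift F hF)
  constructor
  · intro x y
    induction x using Quotient.inductionOn with | _ x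
    induction y using Quotient.inductionOn with | _ y
    intro h
    change F x = F y at h
    apply Quotient.sound
    rcases x with d | i <;> rcases y with e | j
    · have h2 : Quotient.mk (Perm.SameCycle.setoid π) d = Quotient.mk _ e := Sum.inl_injective h
      obtain ⟨k, hk⟩ := Quotient.exact h2
      refine ⟨k, ?_⟩
      rw [ext3_zpow, ext3_inl, hk]
    · exact absurd h (by simp [F])
    · exact absurd h (by simp [F])
    · have h2 : i = j := Sum.inr_injective h
      subst h2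
      exact ⟨0, rfl⟩
  · rintro (q | i)
    · induction q using Quotient.inductionOn with | _ d
      exact ⟨Quotient.mk _ (.inl d), rfl⟩
    · exact ⟨Quotient.mk _ (.inr i), rfl⟩

/-- Multiplication by a transposition with a fixed point. -/
theorem cyc_join (hC : CycStmt) {D : Type} [Fintype D] [DecidableEq D] (π : Perm D) (x z : D)
    (hxz : x ≠ z) (hz : π z = z) : cyc (swap x z * π) + 1 = cyc π := by
  refine (hC D π x z hxz).2 ?_
  intro h
  have h1 := h.symm
  obtain ⟨k, hk⟩ := h1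
  rw [Perm.zpow_apply_eq_self_of_apply_eq_self hz] at hk
  exact hxz hk.symm

section

variable {D : Type} [DecidableEq D]

/-- The permutation of a hypermap after the cube insertion. -/
def nw (π : Perm D) (d₀ : D) (i j k : Fin 3) : Perm (D ⊕ Fin 3) :=
  swap (Sum.inl d₀) (Sum.inr i) * (swap (Sum.inl (π d₀)) (Sum.inr j) * (swap (Sum.inr i) (Sum.inr k) * ext3 π)) *
    swap (Sum.inl d₀) (Sum.inr i)

theorem cyc_nw (hC : CycStmt) [Fintype D] (π : Perm D) (d₀ : D) (i j k : Fin 3) (hij : i ≠ j)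
    (hik : i ≠ k) (hjk : j ≠ k) : cyc (nw π d₀ i j k) = cyc π + 1 := by
  have h1 : cyc (nw π d₀ i j k) =
      cyc (swap (Sum.inl (π d₀)) (Sum.inr j) * (swap (Sum.inr i) (Sum.inr k) * ext3 π)) := by
    apply cyc_conj _ _ (swap (Sum.inl d₀) (Sum.inr i))
    intro x
    simp only [nw, Perm.mul_apply, swap_apply_self]
  have h2 : cyc (swap (Sum.inr i) (Sum.inr k) * ext3 π) + 1 = cyc (ext3 π) := by
    apply cyc_join hC
    · intro h
      exact hik (Sum.inr_injective h)
    · rfl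
  have h3 : cyc (swap (Sum.inl (π d₀)) (Sum.inr j) * (swap (Sum.inr i) (Sum.inr k) * ext3 π)) + 1 =
      cyc (swap (Sum.inr i) (Sum.inr k) * ext3 π) := by
    apply cyc_join hC
    · exact Sum.inl_ne_inr
    · rw [Perm.mul_apply, ext3_inr]
      apply swap_apply_of_ne_of_ne
      · intro h
        exact hij (Sum.inr_injective h).symm
      · intro h
        exact hjk (Sum.inr_injective h)
  have h4 := cyc_ext3 π
  omega

theorem nw_base (π : Perm D) (d₀ : D) (i j k : Fin 3) (hij : i ≠ j)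
    (hik : i ≠ k) (hjk : j ≠ k) : nw π d₀ i j k (.inl d₀) = .inr k := by
  unfold nw
  rw [Perm.mul_apply, Perm.mul_apply, Perm.mul_apply, Perm.mul_apply, swap_apply_left, ext3_inr,
    swap_apply_left, swap_apply_of_ne_of_ne Sum.inr_ne_inl (fun h => hjk (Sum.inr_injective h).symm),
    swap_apply_of_ne_of_ne Sum.inr_ne_inl (fun h => hik (Sum.inr_injective h).symm)]

theorem nw_k (π : Perm D) (d₀ : D) (i j k : Fin 3) (hij : i ≠ j)
    (hik : i ≠ k) (hjk : j ≠ k) : nw π d₀ i j k (.inr k) = .inl d₀ := by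
  unfold nw
  rw [Perm.mul_apply, Perm.mul_apply, Perm.mul_apply, Perm.mul_apply,
    swap_apply_of_ne_of_ne Sum.inr_ne_inl (fun h => hik (Sum.inr_injective h).symm), ext3_inr,
    swap_apply_right, swap_apply_of_ne_of_ne Sum.inr_ne_inl (fun h => hij (Sum.inr_injective h)),
    swap_apply_right]

theorem nw_i (π : Perm D) (d₀ : D) (i j k : Fin 3) (hij : i ≠ j)
    (hπ : π d₀ ≠ d₀) : nw π d₀ i j k (.inr i) = .inr j := by
  unfold nw
  rw [Perm.mul_apply, Perm.mul_apply, Perm.mul_apply, Perm.mul_apply, swap_apply_right, ext3_inl,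
    swap_apply_of_ne_of_ne Sum.inl_ne_inr Sum.inl_ne_inr, swap_apply_left,
    swap_apply_of_ne_of_ne Sum.inr_ne_inl (fun h => hij (Sum.inr_injective h).symm)]

theorem nw_j (π : Perm D) (d₀ : D) (i j k : Fin 3) (hij : i ≠ j) (hjk : j ≠ k)
    (hπ : π d₀ ≠ d₀) : nw π d₀ i j k (.inr j) = .inl (π d₀) := by
  unfold nw
  rw [Perm.mul_apply, Perm.mul_apply, Perm.mul_apply, Perm.mul_apply,
    swap_apply_of_ne_of_ne Sum.inr_ne_inl (fun h => hij (Sum.inr_injective h).symm), ext3_inr,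
    swap_apply_of_ne_of_ne (fun h => hij (Sum.inr_injective h).symm)
      (fun h => hjk (Sum.inr_injective h)), swap_apply_right,
    swap_apply_of_ne_of_ne (fun h => hπ (Sum.inl_injective h)) Sum.inl_ne_inr]

theorem nw_inl (π : Perm D) (d₀ : D) (i j k : Fin 3) {d : D} (hd : d ≠ d₀) :
    nw π d₀ i j k (.inl d) = swap (Sum.inl d₀) (Sum.inr i) (.inl (π d)) := by
  unfold nw
  rw [Perm.mul_apply, Perm.mul_apply, Perm.mul_apply, Perm.mul_apply,
    swap_apply_of_ne_of_ne (fun h => hd (Sum.inl_injective h)) Sum.inl_ne_inr, ext3_inl,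
    swap_apply_of_ne_of_ne Sum.inl_ne_inr Sum.inl_ne_inr,
    swap_apply_of_ne_of_ne (fun h => hd (π.injective (Sum.inl_injective h))) Sum.inl_ne_inr]

end

/-! ### Graphs -/

theorem hgr_ft {D : Type} (α σ : Perm D) (a b : D) :
    (hgr α σ).Adj (a, false) (b, true) ↔ b = a ∨ b = α a ∨ b = σ a := by
  constructor
  · rintro (⟨-, -, h⟩ | ⟨h, -⟩)
    · exact h
    · exact absurd h (by simp)
  · intro h
    exact Or.inl ⟨rfl, rfl, h⟩

theorem hgr_same {D : Type} (α σ : Perm D) (a b : D) (s : Bool) :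
    ¬ (hgr α σ).Adj (a, s) (b, s) := by
  rintro (⟨h1, h2, -⟩ | ⟨h1, h2, -⟩)
  · exact absurd (h1.symm.trans h2) (by decide)
  · exact absurd (h1.symm.trans h2) (by decide)

/-- Cube insertion and isomorphisms. -/
def insIso {V V' : Type} {G : SimpleGraph V} {G' : SimpleGraph V'} (φ : G ≃g G') (x : V)
    (n : Fin 3 → V) (x' : V') (n' : Fin 3 → V') (hx : φ x = x') (hn : ∀ i, φ (n i) = n' i) :
    ins G x n ≃g ins G' x' n' where
  toEquiv := Equiv.sumCongr φ.toEquiv (Equiv.refl _)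
  map_rel_iff' := by
    rintro (u | ⟨i, b⟩) (v | ⟨j, c⟩)
    · change (G'.Adj (φ u) (φ v) ∧ φ u ≠ x' ∧ φ v ≠ x') ↔ (G.Adj u v ∧ u ≠ x ∧ v ≠ x)
      rw [φ.map_adj_iff, ← hx, φ.injective.ne_iff, φ.injective.ne_iff]
    · change ((c = false ∧ φ u = x') ∨ (c = true ∧ φ u = n' j)) ↔
        ((c = false ∧ u = x) ∨ (c = true ∧ u = n j))
      rw [← hx, ← hn, φ.injective.eq_iff, φ.injective.eq_iff]
    · change ((b = false ∧ φ v = x') ∨ (b = true ∧ φ v = n' i)) ↔
        ((b = false ∧ v = x) ∨ (b = true ∧ v = n i))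
      rw [← hx, ← hn, φ.injective.eq_iff, φ.injective.eq_iff]
    · exact Iff.rfl

section

variable {D : Type} [DecidableEq D]

/-- The natural correspondence of the vertices. -/
def vN (D : Type) : (D × Bool) ⊕ Fin 3 × Bool ≃ (D ⊕ Fin 3) × Bool where
  toFun
    | .inl (d, b) => (.inl d, b)
    | .inr (i, b) => (.inr i, !b)
  invFun
    | (.inl d, b) => .inl (d, b)
    | (.inr i, b) => .inr (i, !b)
  left_inv := by
    rintro (⟨d, b⟩ | ⟨i, b⟩)
    · rfl
    · cases b <;> rfl
  right_inv := by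
    rintro ⟨d | i, b⟩
    · rfl
    · cases b <;> rfl

/-- A permutation for each side. -/
def vP {Z : Type} (A B : Perm Z) : Perm (Z × Bool) where
  toFun p := (if p.2 then A p.1 else B p.1, p.2)
  invFun p := (if p.2 then A.symm p.1 else B.symm p.1, p.2)
  left_inv := by
    rintro ⟨z, b⟩
    cases b <;> simp
  right_inv := by
    rintro ⟨z, b⟩
    cases b <;> simp

/-- The correspondence of the vertices. -/
def vE (d₀ : D) : (D × Bool) ⊕ Fin 3 × Bool ≃ (D ⊕ Fin 3) × Bool :=
  (vN D).trans (vP (swap (Sum.inl d₀) (Sum.inr 0)) (Perm.sumCongr 1 (swap 1 2)))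

theorem vE_lf (d₀ d : D) : vE d₀ (.inl (d, false)) = (.inl d, false) := rfl

theorem vE_lt (d₀ d : D) : vE d₀ (.inl (d, true)) =
    (swap (Sum.inl d₀) (Sum.inr 0) (.inl d), true) := rfl

theorem vE_rf (d₀ : D) (i : Fin 3) : vE d₀ (.inr (i, false)) =
    (swap (Sum.inl d₀) (Sum.inr 0) (.inr i), true) := rfl

theorem vE_rt (d₀ : D) (i : Fin 3) : vE d₀ (.inr (i, true)) =
    (.inr (swap 1 2 i), false) := rfl

/-- the neighbours of `(d₀, false)` -/
def nb (α σ : Perm D) (d₀ : D) : Fin 3 → D × Bool := ![(d₀, true), (α d₀, true), (σ d₀, true)]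

/-- the new first permutation -/
abbrev na (α : Perm D) (d₀ : D) : Perm (D ⊕ Fin 3) := nw α d₀ 0 2 1

/-- the new second permutation -/
abbrev ns (σ : Perm D) (d₀ : D) : Perm (D ⊕ Fin 3) := nw σ d₀ 0 1 2

theorem key (α σ : Perm D) (d₀ : D) (hα : ∀ d, α d ≠ d) (hσ : ∀ d, σ d ≠ d)
    (u v : (D × Bool) ⊕ Fin 3 × Bool) (hu : (vE d₀ u).2 = false) (hv : (vE d₀ v).2 = true) :
    (hgr (na α d₀) (ns σ d₀)).Adj (vE d₀ u) (vE d₀ v) ↔
      (ins (hgr α σ) (d₀, false) (nb α σ d₀)).Adj u v := by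
  set w : Perm (D ⊕ Fin 3) := swap (Sum.inl d₀) (Sum.inr 0) with hw
  have w0 : w (.inl d₀) = .inr 0 := swap_apply_left _ _
  have w1 : w (.inr 0) = .inl d₀ := swap_apply_right _ _
  have w2 : w (.inr 1) = .inr 1 := swap_apply_of_ne_of_ne Sum.inr_ne_inl (by simp)
  have w3 : w (.inr 2) = .inr 2 := swap_apply_of_ne_of_ne Sum.inr_ne_inl (by simp)
  have w4 : ∀ d, d ≠ d₀ → w (.inl d) = .inl d := fun d hd =>
    swap_apply_of_ne_of_ne (fun h => hd (Sum.inl_injective h)) Sum.inl_ne_inr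
  have hα0 := hα d₀
  have hσ0 := hσ d₀
  have a0 : na α d₀ (.inl d₀) = .inr 1 := nw_base α d₀ 0 2 1 (by decide) (by decide) (by decide)
  have a1 : na α d₀ (.inr 1) = .inl d₀ := nw_k α d₀ 0 2 1 (by decide) (by decide) (by decide)
  have a2 : na α d₀ (.inr 0) = .inr 2 := nw_i α d₀ 0 2 1 (by decide) hα0
  have a3 : na α d₀ (.inr 2) = .inl (α d₀) := nw_j α d₀ 0 2 1 (by decide) (by decide) hα0
  have a4 : ∀ d, d ≠ d₀ → na α d₀ (.inl d) = w (.inl (α d)) := fun d hd => nw_inl α d₀ 0 2 1 hd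
  have s0 : ns σ d₀ (.inl d₀) = .inr 2 := nw_base σ d₀ 0 1 2 (by decide) (by decide) (by decide)
  have s1 : ns σ d₀ (.inr 2) = .inl d₀ := nw_k σ d₀ 0 1 2 (by decide) (by decide) (by decide)
  have s2 : ns σ d₀ (.inr 0) = .inr 1 := nw_i σ d₀ 0 1 2 (by decide) hσ0
  have s3 : ns σ d₀ (.inr 1) = .inl (σ d₀) := nw_j σ d₀ 0 1 2 (by decide) (by decide) hσ0
  have s4 : ∀ d, d ≠ d₀ → ns σ d₀ (.inl d) = w (.inl (σ d)) := fun d hd => nw_inl σ d₀ 0 1 2 hd
  rcases u with ⟨d, _ | _⟩ | ⟨i, _ | _⟩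
  · rcases v with ⟨e, _ | _⟩ | ⟨j, _ | _⟩
    · exact absurd hv (by simp [vE_lf])
    · -- old, old
      rw [vE_lf, vE_lt, hgr_ft]
      change _ ↔ (hgr α σ).Adj (d, false) (e, true) ∧ (d, false) ≠ (d₀, false) ∧
        (e, true) ≠ (d₀, false)
      rw [hgr_ft]
      by_cases hd : d = d₀
      · subst hd
        rw [a0, s0]
        constructor
        · intro h
          exfalso
          by_cases he : e = d
          · subst he
            rw [w0] at h
            revert h
            simp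
          · rw [w4 e he] at h
            rcases h with h | h | h
            · exact he (Sum.inl_injective h)
            · exact absurd h Sum.inl_ne_inr
            · exact absurd h Sum.inl_ne_inr
        · rintro ⟨-, h, -⟩
          exact absurd rfl h
      · rw [a4 d hd, s4 d hd]
        have e1 : w (.inl e) = .inl d ↔ e = d := by
          rw [← w4 d hd, w.injective.eq_iff, Sum.inl_injective.eq_iff]
        rw [e1, w.injective.eq_iff, w.injective.eq_iff, Sum.inl_injective.eq_iff,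
          Sum.inl_injective.eq_iff]
        constructor
        · intro h
          exact ⟨h, fun h' => hd (congrArg Prod.fst h'), fun h' => by simp at h'⟩
        · exact fun h => h.1
    · -- old, A
      rw [vE_lf, vE_rf, hgr_ft]
      change _ ↔ (false = false ∧ (d, false) = (d₀, false)) ∨
        (false = true ∧ (d, false) = nb α σ d₀ j)
      have e0 : ((false = false ∧ (d, false) = (d₀, false)) ∨
        (false = true ∧ (d, false) = nb α σ d₀ j)) ↔ d = d₀ := by simp
      rw [e0]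
      by_cases hd : d = d₀
      · subst hd
        rw [a0, s0]
        refine ⟨fun _ => rfl, fun _ => ?_⟩
        fin_cases j
        · exact Or.inl w1
        · exact Or.inr (Or.inl w2)
        · exact Or.inr (Or.inr w3)
      · rw [a4 d hd, s4 d hd]
        refine ⟨fun h => ?_, fun h => absurd h hd⟩
        exfalso
        have e1 : w (.inr j) = .inl d ↔ (Sum.inr j : D ⊕ Fin 3) = .inl d := by
          rw [← w4 d hd, w.injective.eq_iff, w4 d hd]
        rw [e1, w.injective.eq_iff, w.injective.eq_iff] at h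
        revert h
        simp
    · exact absurd hv (by simp [vE_rt])
  · exact absurd hu (by simp [vE_lt])
  · exact absurd hu (by simp [vE_rf])
  · rcases v with ⟨e, _ | _⟩ | ⟨j, _ | _⟩
    · exact absurd hv (by simp [vE_lf])
    · -- B, old
      rw [vE_rt, vE_lt, hgr_ft]
      change _ ↔ (true = false ∧ (e, true) = (d₀, false)) ∨
        (true = true ∧ (e, true) = nb α σ d₀ i)
      have e0 : ((true = false ∧ (e, true) = (d₀, false)) ∨
        (true = true ∧ (e, true) = nb α σ d₀ i)) ↔ (e, true) = nb α σ d₀ i := by simp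
      rw [e0]
      have wi : ∀ x y, w (.inl x) = .inl y ↔ x ≠ d₀ ∧ x = y := by
        intro x y
        by_cases hx : x = d₀
        · subst hx
          rw [w0]
          simp
        · rw [w4 x hx, Sum.inl_injective.eq_iff]
          exact ⟨fun h => ⟨hx, h⟩, fun h => h.2⟩
      have wr : ∀ x (k : Fin 3), w (.inl x) = .inr k ↔ x = d₀ ∧ k = 0 := by
        intro x k
        by_cases hx : x = d₀
        · subst hx
          rw [w0, Sum.inr_injective.eq_iff]
          exact ⟨fun h => ⟨rfl, h.symm⟩, fun h => h.2.symm⟩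
        · rw [w4 x hx]
          simp [hx]
      fin_cases i
      · change (w (.inl e) = .inr 0 ∨ w (.inl e) = na α d₀ (.inr 0) ∨
          w (.inl e) = ns σ d₀ (.inr 0)) ↔ (e, true) = (d₀, true)
        rw [a2, s2, wr, wr, wr]
        simp
      · change (w (.inl e) = .inr 2 ∨ w (.inl e) = na α d₀ (.inr 2) ∨
          w (.inl e) = ns σ d₀ (.inr 2)) ↔ (e, true) = (α d₀, true)
        rw [a3, s1, wr, wi, wi]
        constructor
        · rintro (⟨-, h⟩ | ⟨h1, h2⟩ | ⟨h1, h2⟩)
          · exact absurd h (by decide)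
          · rw [h2]
          · exact absurd h2 h1
        · intro h
          have h2 : e = α d₀ := congrArg Prod.fst h
          right; left
          exact ⟨by rw [h2]; exact hα0, h2⟩
      · change (w (.inl e) = .inr 1 ∨ w (.inl e) = na α d₀ (.inr 1) ∨
          w (.inl e) = ns σ d₀ (.inr 1)) ↔ (e, true) = (σ d₀, true)
        rw [a1, s3, wr, wi, wi]
        constructor
        · rintro (⟨-, h⟩ | ⟨h1, h2⟩ | ⟨h1, h2⟩)
          · exact absurd h (by decide)
          · exact absurd h2 h1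
          · rw [h2]
        · intro h
          have h2 : e = σ d₀ := congrArg Prod.fst h
          right; right
          exact ⟨by rw [h2]; exact hσ0, h2⟩
    · -- B, A
      rw [vE_rt, vE_rf, hgr_ft]
      change _ ↔ true ≠ false ∧ i ≠ j
      have e0 : (true ≠ false ∧ i ≠ j) ↔ i ≠ j := by simp
      rw [e0]
      fin_cases i
      · change (w (.inr j) = .inr 0 ∨ w (.inr j) = na α d₀ (.inr 0) ∨
          w (.inr j) = ns σ d₀ (.inr 0)) ↔ (0 : Fin 3) ≠ j
        rw [a2, s2]
        fin_cases j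
        · change (w (.inr 0) = .inr 0 ∨ w (.inr 0) = .inr 2 ∨ w (.inr 0) = .inr 1) ↔ _
          rw [w1]; simp
        · change (w (.inr 1) = .inr 0 ∨ w (.inr 1) = .inr 2 ∨ w (.inr 1) = .inr 1) ↔ _
          rw [w2]; simp
        · change (w (.inr 2) = .inr 0 ∨ w (.inr 2) = .inr 2 ∨ w (.inr 2) = .inr 1) ↔ _
          rw [w3]; simp
      · change (w (.inr j) = .inr 2 ∨ w (.inr j) = na α d₀ (.inr 2) ∨
          w (.inr j) = ns σ d₀ (.inr 2)) ↔ (1 : Fin 3) ≠ j
        rw [a3, s1]
        fin_cases j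
        · change (w (.inr 0) = .inr 2 ∨ w (.inr 0) = .inl (α d₀) ∨ w (.inr 0) = .inl d₀) ↔ _
          rw [w1]; simp
        · change (w (.inr 1) = .inr 2 ∨ w (.inr 1) = .inl (α d₀) ∨ w (.inr 1) = .inl d₀) ↔ _
          rw [w2]; simp
        · change (w (.inr 2) = .inr 2 ∨ w (.inr 2) = .inl (α d₀) ∨ w (.inr 2) = .inl d₀) ↔ _
          rw [w3]; simp
      · change (w (.inr j) = .inr 1 ∨ w (.inr j) = na α d₀ (.inr 1) ∨
          w (.inr j) = ns σ d₀ (.inr 1)) ↔ (2 : Fin 3) ≠ j
        rw [a1, s3]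
        fin_cases j
        · change (w (.inr 0) = .inr 1 ∨ w (.inr 0) = .inl d₀ ∨ w (.inr 0) = .inl (σ d₀)) ↔ _
          rw [w1]; simp
        · change (w (.inr 1) = .inr 1 ∨ w (.inr 1) = .inl d₀ ∨ w (.inr 1) = .inl (σ d₀)) ↔ _
          rw [w2]; simp
        · change (w (.inr 2) = .inr 1 ∨ w (.inr 2) = .inl d₀ ∨ w (.inr 2) = .inl (σ d₀)) ↔ _
          rw [w3]; simp
    · exact absurd hv (by simp [vE_rt])

theorem same (α σ : Perm D) (d₀ : D) (u v : (D × Bool) ⊕ Fin 3 × Bool)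
    (h : (vE d₀ u).2 = (vE d₀ v).2) :
    ¬ (ins (hgr α σ) (d₀, false) (nb α σ d₀)).Adj u v := by
  rcases u with ⟨d, b⟩ | ⟨i, b⟩ <;> rcases v with ⟨e, c⟩ | ⟨j, c⟩
  · change b = c at h
    subst h
    rintro ⟨h1, -⟩
    exact hgr_same α σ d e b h1
  · change b = !c at h
    rintro (⟨h1, h2⟩ | ⟨h1, h2⟩)
    · have h3 : b = false := congrArg Prod.snd h2
      rw [h3, h1] at h
      exact absurd h (by decide)
    · have h3 : b = true := by
        have := congrArg Prod.snd h2
        change b = (nb α σ d₀ j).2 at this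
        rw [this]
        fin_cases j <;> rfl
      rw [h3, h1] at h
      exact absurd h (by decide)
  · change (!b) = c at h
    rintro (⟨h1, h2⟩ | ⟨h1, h2⟩)
    · have h3 : c = false := congrArg Prod.snd h2
      rw [h3, h1] at h
      exact absurd h (by decide)
    · have h3 : c = true := by
        have := congrArg Prod.snd h2
        change c = (nb α σ d₀ i).2 at this
        rw [this]
        fin_cases i <;> rfl
      rw [h3, h1] at h
      exact absurd h (by decide)
  · change (!b) = !c at h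
    rintro ⟨h1, -⟩
    apply h1
    cases b <;> cases c <;> simp_all

/-- The graph of the hypermap after the insertion. -/
def iso2 (α σ : Perm D) (d₀ : D) (hα : ∀ d, α d ≠ d) (hσ : ∀ d, σ d ≠ d) :
    ins (hgr α σ) (d₀, false) (nb α σ d₀) ≃g hgr (na α d₀) (ns σ d₀) where
  toEquiv := vE d₀
  map_rel_iff' := by
    intro u v
    cases hu : (vE d₀ u).2 <;> cases hv : (vE d₀ v).2
    · have h1 := same α σ d₀ u v (by rw [hu, hv])
      have h2 : ¬ (hgr (na α d₀) (ns σ d₀)).Adj (vE d₀ u) (vE d₀ v) := by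
        have e1 : vE d₀ u = ((vE d₀ u).1, false) := Prod.ext rfl hu
        have e2 : vE d₀ v = ((vE d₀ v).1, false) := Prod.ext rfl hv
        rw [e1, e2]
        exact hgr_same _ _ _ _ _
      exact ⟨fun h => absurd h h2, fun h => absurd h h1⟩
    · exact key α σ d₀ hα hσ u v hu hv
    · rw [SimpleGraph.adj_comm, SimpleGraph.adj_comm _ u v]
      exact key α σ d₀ hα hσ v u hv hu
    · have h1 := same α σ d₀ u v (by rw [hu, hv])
      have h2 : ¬ (hgr (na α d₀) (ns σ d₀)).Adj (vE d₀ u) (vE d₀ v) := by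
        have e1 : vE d₀ u = ((vE d₀ u).1, true) := Prod.ext rfl hu
        have e2 : vE d₀ v = ((vE d₀ v).1, true) := Prod.ext rfl hv
        rw [e1, e2]
        exact hgr_same _ _ _ _ _
      exact ⟨fun h => absurd h h2, fun h => absurd h h1⟩

/-- The quotient of the new permutations. -/
theorem quot (α σ : Perm D) (d₀ : D) (hα : ∀ d, α d ≠ d) (hσ : ∀ d, σ d ≠ d)
    (hασ : ∀ d, α d ≠ σ d) : (na α d₀)⁻¹ * ns σ d₀ = nw (α⁻¹ * σ) d₀ 2 1 0 := by
  have hφ : (α⁻¹ * σ) d₀ ≠ d₀ := by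
    intro h
    rw [Perm.mul_apply, Perm.inv_eq_iff_eq] at h
    exact hασ d₀ h.symm
  rw [inv_mul_eq_iff_eq_mul]
  have hα0 := hα d₀
  have hσ0 := hσ d₀
  have a0 : na α d₀ (.inl d₀) = .inr 1 := nw_base α d₀ 0 2 1 (by decide) (by decide) (by decide)
  have a1 : na α d₀ (.inr 1) = .inl d₀ := nw_k α d₀ 0 2 1 (by decide) (by decide) (by decide)
  have a2 : na α d₀ (.inr 0) = .inr 2 := nw_i α d₀ 0 2 1 (by decide) hα0
  have a3 : na α d₀ (.inr 2) = .inl (α d₀) := nw_j α d₀ 0 2 1 (by decide) (by decide) hα0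
  have s0 : ns σ d₀ (.inl d₀) = .inr 2 := nw_base σ d₀ 0 1 2 (by decide) (by decide) (by decide)
  have s1 : ns σ d₀ (.inr 2) = .inl d₀ := nw_k σ d₀ 0 1 2 (by decide) (by decide) (by decide)
  have s2 : ns σ d₀ (.inr 0) = .inr 1 := nw_i σ d₀ 0 1 2 (by decide) hσ0
  have s3 : ns σ d₀ (.inr 1) = .inl (σ d₀) := nw_j σ d₀ 0 1 2 (by decide) (by decide) hσ0
  have s4 : ∀ d, d ≠ d₀ → ns σ d₀ (.inl d) = swap (Sum.inl d₀) (Sum.inr 0) (.inl (σ d)) :=
    fun d hd => nw_inl σ d₀ 0 1 2 hd
  have a4 : ∀ d, d ≠ d₀ → na α d₀ (.inl d) = swap (Sum.inl d₀) (Sum.inr 0) (.inl (α d)) :=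
    fun d hd => nw_inl α d₀ 0 2 1 hd
  set φ := α⁻¹ * σ with hφd
  have q0 : nw φ d₀ 2 1 0 (.inl d₀) = .inr 0 :=
    nw_base φ d₀ 2 1 0 (by decide) (by decide) (by decide)
  have q1 : nw φ d₀ 2 1 0 (.inr 0) = .inl d₀ :=
    nw_k φ d₀ 2 1 0 (by decide) (by decide) (by decide)
  have q2 : nw φ d₀ 2 1 0 (.inr 2) = .inr 1 := nw_i φ d₀ 2 1 0 (by decide) hφ
  have q3 : nw φ d₀ 2 1 0 (.inr 1) = .inl (φ d₀) := nw_j φ d₀ 2 1 0 (by decide) (by decide) hφ
  have q4 : ∀ d, d ≠ d₀ → nw φ d₀ 2 1 0 (.inl d) = swap (Sum.inl d₀) (Sum.inr 2) (.inl (φ d)) :=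
    fun d hd => nw_inl φ d₀ 2 1 0 hd
  have hαφ : ∀ d, α (φ d) = σ d := by
    intro d
    rw [hφd, Perm.mul_apply]
    exact α.apply_symm_apply (σ d)
  apply Equiv.ext
  intro z
  rw [Perm.mul_apply]
  rcases z with d | i
  · by_cases hd : d = d₀
    · subst hd
      rw [s0, q0, a2]
    · rw [s4 d hd, q4 d hd]
      by_cases h1 : φ d = d₀
      · have h2 : σ d = α d₀ := by rw [← hαφ, h1]
        rw [h1, swap_apply_left, a3, h2,
          swap_apply_of_ne_of_ne (fun h => hα0 (Sum.inl_injective h)) Sum.inl_ne_inr]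
      · rw [swap_apply_of_ne_of_ne (fun h => h1 (Sum.inl_injective h)) Sum.inl_ne_inr, a4 _ h1,
          hαφ]
  · fin_cases i
    · change ns σ d₀ (.inr 0) = na α d₀ (nw φ d₀ 2 1 0 (.inr 0))
      rw [s2, q1, a0]
    · change ns σ d₀ (.inr 1) = na α d₀ (nw φ d₀ 2 1 0 (.inr 1))
      rw [s3, q3, a4 _ hφ, hαφ,
        swap_apply_of_ne_of_ne (fun h => hσ0 (Sum.inl_injective h)) Sum.inl_ne_inr]
    · change ns σ d₀ (.inr 2) = na α d₀ (nw φ d₀ 2 1 0 (.inr 2))
      rw [s1, q2, a1]

end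

theorem hin (hC : CycStmt) : HinStmt := by
  classical
  rintro V G x n ⟨D, hD, α, σ, d₀, φ, hx, h0, h1, h2, hα, hσ, hασ, hcyc⟩
  have hn : ∀ i, φ (n i) = nb α σ d₀ i := by
    intro i
    fin_cases i
    · exact h0
    · exact h1
    · exact h2
  let ψ : ins G x n ≃g hgr (na α d₀) (ns σ d₀) :=
    (insIso φ x n (d₀, false) (nb α σ d₀) hx hn).trans (iso2 α σ d₀ hα hσ)
  have hα0 := hα d₀
  have hσ0 := hσ d₀
  have a0 : na α d₀ (.inl d₀) = .inr 1 := nw_base α d₀ 0 2 1 (by decide) (by decide) (by decide)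
  have s0 : ns σ d₀ (.inl d₀) = .inr 2 := nw_base σ d₀ 0 1 2 (by decide) (by decide) (by decide)
  have w1 : swap (Sum.inl d₀ : D ⊕ Fin 3) (Sum.inr 0) (.inr 0) = .inl d₀ := swap_apply_right _ _
  have w2 : swap (Sum.inl d₀ : D ⊕ Fin 3) (Sum.inr 0) (.inr 1) = .inr 1 :=
    swap_apply_of_ne_of_ne Sum.inr_ne_inl (by simp)
  have w3 : swap (Sum.inl d₀ : D ⊕ Fin 3) (Sum.inr 0) (.inr 2) = .inr 2 :=
    swap_apply_of_ne_of_ne Sum.inr_ne_inl (by simp)
  have hA : ∀ (π : Perm D) (j k : Fin 3), (0 : Fin 3) ≠ j → (0 : Fin 3) ≠ k → j ≠ k →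
      (∀ d, π d ≠ d) → ∀ z, nw π d₀ 0 j k z ≠ z := by
    intro π j k h0j h0k hjk hπ z
    rcases z with d | i
    · by_cases hd : d = d₀
      · subst hd
        rw [nw_base π d 0 j k h0j h0k hjk]
        exact Sum.inr_ne_inl
      · rw [nw_inl π d₀ 0 j k hd]
        by_cases h : π d = d₀
        · rw [h, swap_apply_left]
          exact Sum.inr_ne_inl
        · rw [swap_apply_of_ne_of_ne (fun h' => h (Sum.inl_injective h')) Sum.inl_ne_inr]
          exact fun h' => hπ d (Sum.inl_injective h')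
    · have hi : i = 0 ∨ i = j ∨ i = k := by
        revert h0j h0k hjk
        fin_cases i <;> fin_cases j <;> fin_cases k <;> simp
      rcases hi with hi | hi | hi
      · rw [hi, nw_i π d₀ 0 j k h0j (hπ d₀)]
        exact fun h => h0j (Sum.inr_injective h).symm
      · rw [hi, nw_j π d₀ 0 j k h0j hjk (hπ d₀)]
        exact Sum.inl_ne_inr
      · rw [hi, nw_k π d₀ 0 j k h0j h0k hjk]
        exact Sum.inl_ne_inr
  refine ⟨D ⊕ Fin 3, inferInstance, na α d₀, ns σ d₀, .inl d₀, ψ, ?_, ?_, ?_, ?_, ?_, ?_, ?_, ?_⟩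
  · change vE d₀ (.inl (φ x)) = _
    rw [hx, vE_lf]
  · change vE d₀ (.inr (0, false)) = _
    rw [vE_rf, w1]
  · change vE d₀ (.inr (1, false)) = _
    rw [vE_rf, w2, a0]
  · change vE d₀ (.inr (2, false)) = _
    rw [vE_rf, w3, s0]
  · exact hA α 2 1 (by decide) (by decide) (by decide) hα
  · exact hA σ 1 2 (by decide) (by decide) (by decide) hσ
  · intro z hz
    have hq := quot α σ d₀ hα hσ hασ
    have hφ : (α⁻¹ * σ) d₀ ≠ d₀ := by
      intro h
      rw [Perm.mul_apply, Perm.inv_eq_iff_eq] at h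
      exact hασ d₀ h.symm
    have h3 : ((na α d₀)⁻¹ * ns σ d₀) z = z := by
      rw [Perm.mul_apply, Perm.inv_eq_iff_eq]
      exact hz.symm
    rw [hq] at h3
    have hφ' : ∀ d, (α⁻¹ * σ) d ≠ d := by
      intro d h
      rw [Perm.mul_apply, Perm.inv_eq_iff_eq] at h
      exact hασ d h.symm
    set π := α⁻¹ * σ
    rcases z with d | i
    · by_cases hd : d = d₀
      · subst hd
        rw [nw_base π d 2 1 0 (by decide) (by decide) (by decide)] at h3
        exact Sum.inr_ne_inl h3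
      · rw [nw_inl π d₀ 2 1 0 hd] at h3
        by_cases h : π d = d₀
        · rw [h, swap_apply_left] at h3
          exact Sum.inr_ne_inl h3
        · rw [swap_apply_of_ne_of_ne (fun h' => h (Sum.inl_injective h')) Sum.inl_ne_inr] at h3
          exact hφ' d (Sum.inl_injective h3)
    · fin_cases i
      · change nw π d₀ 2 1 0 (.inr 0) = .inr 0 at h3
        rw [nw_k π d₀ 2 1 0 (by decide) (by decide) (by decide)] at h3
        exact Sum.inl_ne_inr h3
      · change nw π d₀ 2 1 0 (.inr 1) = .inr 1 at h3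
        rw [nw_j π d₀ 2 1 0 (by decide) (by decide) hφ] at h3
        exact Sum.inl_ne_inr h3
      · change nw π d₀ 2 1 0 (.inr 2) = .inr 2 at h3
        rw [nw_i π d₀ 2 1 0 (by decide) hφ] at h3
        have := Sum.inr_injective h3
        exact absurd this (by decide)
  · rw [quot α σ d₀ hα hσ hασ, cyc_nw hC α d₀ 0 2 1 (by decide) (by decide) (by decide),
      cyc_nw hC σ d₀ 0 1 2 (by decide) (by decide) (by decide),
      cyc_nw hC (α⁻¹ * σ) d₀ 2 1 0 (by decide) (by decide) (by decide), Fintype.card_sum,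
      Fintype.card_fin]
    omega

end Pool.Agent.HAM.H64
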