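import Pool.Agent.Helper43_HAM.Stmts

/-!
# Squad HAM, module STA: static properties of the final state of a closed word
-/

namespace Pool.Agent.HAM.H64

open Pool.Agent.HAM

/-- The invariant of the construction. -/
structure Inv (s : St ℕ) : Prop where
  outs : s.vs.flatMap Prod.snd = List.range s.m
  ins : (s.vs.flatMap Prod.fst ++ s.fr).Perm (List.range s.m)
  lt : ∀ t e, e ∈ (s.vs.getD t ([], [])).1 → ∃ t' < t, e ∈ (s.vs.getD t' ([], [])).2
  first : s.vs[0]? = some ([], [0, 1])
  second : s.vs[1]? = some ([0], [2, 3])
  inner : ∀ t, 0 < t → t < s.vs.length →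
    (s.vs.getD t ([], [])).1 ≠ [] ∧ (s.vs.getD t ([], [])).2 ≠ []
  jump : ∀ t, 0 < t → t < s.vs.length → ∃ e t₁, t₁ < t ∧ e ∈ (s.vs.getD t₁ ([], [])).2 ∧
    (e ∈ s.fr ∨ ∃ t₂, t < t₂ ∧ t₂ < s.vs.length ∧ e ∈ (s.vs.getD t₂ ([], [])).1)

theorem Inv.len {s : St ℕ} (h : Inv s) : 2 ≤ s.vs.length := by
  have := h.second
  rw [List.getElem?_eq_some_iff] at this
  obtain ⟨h1, -⟩ := this
  omega

/-- Every open edge has a tail. -/
theorem Inv.tail {s : St ℕ} (h : Inv s) {e : ℕ} (he : e ∈ s.fr) :
    ∃ t < s.vs.length, e ∈ (s.vs.getD t ([], [])).2 := by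
  have h1 : e ∈ List.range s.m := h.ins.subset (List.mem_append_right _ he)
  rw [← h.outs, List.mem_flatMap] at h1
  obtain ⟨v, hv, hev⟩ := h1
  obtain ⟨t, ht, rfl⟩ := List.mem_iff_getElem.mp hv
  exact ⟨t, ht, by rw [List.getD_eq_getElem _ _ ht]; exact hev⟩

theorem getD_append_lt {α : Type} (l l' : List α) (d : α) (t : ℕ) (h : t < l.length) :
    (l ++ l').getD t d = l.getD t d := List.getD_append _ _ _ _ h

theorem getD_concat (l : List (List ℕ × List ℕ)) (x : List ℕ × List ℕ) (t : ℕ) :
    (l ++ [x]).getD t ([], []) = if t < l.length then l.getD t ([], []) else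
      if t = l.length then x else ([], []) := by
  split_ifs with h1 h2
  · exact List.getD_append _ _ _ _ h1
  · subst h2
    rw [List.getD_append_right _ _ _ _ le_rfl]
    simp
  · rw [List.getD_eq_default]
    rw [List.length_append, List.length_singleton]
    omega

theorem mem_split {l : List ℕ} (i a : ℕ) {e : ℕ} (he : e ∈ l) :
    e ∈ l.take i ∨ e ∈ (l.drop i).take a ∨ e ∈ l.drop (i + a) := by
  have h1 : l = l.take i ++ ((l.drop i).take a ++ l.drop (i + a)) := by
    rw [← List.drop_drop, List.take_append_drop, List.take_append_drop]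
  rw [h1, List.mem_append, List.mem_append] at he
  exact he

theorem Inv_rot {s : St ℕ} (h : Inv s) (k : ℕ) : Inv (step id s (.rot k)) := by
  refine ⟨h.outs, ?_, h.lt, h.first, h.second, h.inner, ?_⟩
  · refine List.Perm.trans ?_ h.ins
    exact (List.rotate_perm s.fr k).append_left _
  · intro t h1 h2
    obtain ⟨e, t₁, h3, h4, h5⟩ := h.jump t h1 h2
    refine ⟨e, t₁, h3, h4, ?_⟩
    rcases h5 with h5 | h5
    · left
      exact List.mem_rotate.mpr h5
    · right; exact h5

/-- the list of the outgoing edges and the bookkeeping of the edges -/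
theorem step_perm (s : St ℕ) (i a b : ℕ)
    (ho : s.vs.flatMap Prod.snd = List.range s.m)
    (hi : (s.vs.flatMap Prod.fst ++ s.fr).Perm (List.range s.m)) :
    (step id s (.vtx i a b)).vs.flatMap Prod.snd = List.range (step id s (.vtx i a b)).m ∧
    ((step id s (.vtx i a b)).vs.flatMap Prod.fst ++ (step id s (.vtx i a b)).fr).Perm
      (List.range (step id s (.vtx i a b)).m) := by
  have hr : List.range (s.m + b) = List.range s.m ++ List.range' s.m b := by
    rw [List.range_eq_range', List.range_eq_range', ← List.range'_append]
    simp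
  constructor
  · change (s.vs ++ [((s.fr.drop i).take a, (List.range' s.m b).map id)]).flatMap Prod.snd =
      List.range (s.m + b)
    rw [List.flatMap_append, ho, hr]
    simp
  · change ((s.vs ++ [((s.fr.drop i).take a, (List.range' s.m b).map id)]).flatMap Prod.fst ++
      (s.fr.take i ++ (List.range' s.m b).map id ++ s.fr.drop (i + a))).Perm
      (List.range (s.m + b))
    rw [List.flatMap_append, hr, List.map_id, List.flatMap_cons, List.flatMap_nil,
      List.append_nil]
    have h1 : s.fr = s.fr.take i ++ ((s.fr.drop i).take a ++ s.fr.drop (i + a)) := by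
      rw [← List.drop_drop, List.take_append_drop, List.take_append_drop]
    set A := s.fr.take i
    set B := (s.fr.drop i).take a
    set C := s.fr.drop (i + a)
    set R := List.range' s.m b
    set F := s.vs.flatMap Prod.fst
    have h2 : (F ++ (A ++ (B ++ C))).Perm (List.range s.m) := by rw [← h1]; exact hi
    refine List.Perm.trans ?_ (h2.append_right R)
    rw [List.perm_iff_count]
    intro x
    simp only [List.count_append]
    omega

theorem Inv_vtx {s : St ℕ} (h : Inv s) (i a b : ℕ) (ha : 1 ≤ a) (hb : 1 ≤ b)
    (hia : i + a ≤ s.fr.length) (han : a < s.fr.length) : Inv (step id s (.vtx i a b)) := by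
  obtain ⟨p1, p2⟩ := step_perm s i a b h.outs h.ins
  have hlen := h.len
  set B := (s.fr.drop i).take a with hB
  set R := (List.range' s.m b).map id with hR
  have hvs : (step id s (.vtx i a b)).vs = s.vs ++ [(B, R)] := rfl
  have hfr : (step id s (.vtx i a b)).fr = s.fr.take i ++ R ++ s.fr.drop (i + a) := rfl
  have hBlen : B.length = a := by
    rw [hB, List.length_take, List.length_drop]; omega
  have hRlen : R.length = b := by
    rw [hR, List.length_map, List.length_range']
  refine ⟨p1, p2, ?_, ?_, ?_, ?_, ?_⟩
  · intro t e he
    rw [hvs, getD_concat] at he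
    split_ifs at he with h1 h2
    · obtain ⟨t', ht', he'⟩ := h.lt t e he
      refine ⟨t', ht', ?_⟩
      rw [hvs, getD_concat, if_pos (by omega)]
      exact he'
    · have he1 : e ∈ s.fr := List.drop_subset _ _ (List.take_subset _ _ he)
      obtain ⟨t', ht', he'⟩ := h.tail he1
      refine ⟨t', by omega, ?_⟩
      rw [hvs, getD_concat, if_pos ht']
      exact he'
    · exact absurd he (by simp)
  · rw [hvs, List.getElem?_append_left (by omega)]
    exact h.first
  · rw [hvs, List.getElem?_append_left (by omega)]
    exact h.second
  · intro t h1 h2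
    rw [hvs, List.length_append, List.length_singleton] at h2
    rw [hvs, getD_concat]
    split_ifs with h3 h4
    · exact h.inner t h1 h3
    · refine ⟨?_, ?_⟩
      · intro e
        have e' : B = [] := e
        rw [e'] at hBlen
        change 0 = a at hBlen
        omega
      · intro e
        have e' : R = [] := e
        rw [e'] at hRlen
        change 0 = b at hRlen
        omega
    · omega
  · intro t h1 h2
    rw [hvs, List.length_append, List.length_singleton] at h2
    by_cases h3 : t < s.vs.length
    · obtain ⟨e, t₁, h4, h5, h6⟩ := h.jump t h1 h3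
      refine ⟨e, t₁, h4, ?_, ?_⟩
      · rw [hvs, getD_concat, if_pos (by omega)]
        exact h5
      · rcases h6 with h6 | ⟨t₂, h7, h8, h9⟩
        · rcases mem_split i a h6 with h7 | h7 | h7
          · left
            rw [hfr]
            exact List.mem_append_left _ (List.mem_append_left _ h7)
          · right
            refine ⟨s.vs.length, h3, ?_, ?_⟩
            · rw [hvs, List.length_append, List.length_singleton]; omega
            · rw [hvs, getD_concat, if_neg (by omega), if_pos rfl]
              exact h7
          · left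
            rw [hfr]
            exact List.mem_append_right _ h7
        · right
          refine ⟨t₂, h7, ?_, ?_⟩
          · rw [hvs, List.length_append, List.length_singleton]; omega
          · rw [hvs, getD_concat, if_pos h8]
            exact h9
    · have h4 : t = s.vs.length := by omega
      subst h4
      -- an open edge which is not absorbed
      have h5 : ∃ e, e ∈ s.fr ∧ (e ∈ s.fr.take i ∨ e ∈ s.fr.drop (i + a)) := by
        by_cases hi : i = 0
        · have h6 : (s.fr.drop (i + a)).length ≠ 0 := by
            rw [List.length_drop]; omega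
          obtain ⟨e, he⟩ := List.exists_mem_of_length_pos (Nat.pos_of_ne_zero h6)
          exact ⟨e, List.drop_subset _ _ he, Or.inr he⟩
        · have h6 : (s.fr.take i).length ≠ 0 := by
            rw [List.length_take]; omega
          obtain ⟨e, he⟩ := List.exists_mem_of_length_pos (Nat.pos_of_ne_zero h6)
          exact ⟨e, List.take_subset _ _ he, Or.inl he⟩
      obtain ⟨e, he, he'⟩ := h5
      obtain ⟨t₁, h6, h7⟩ := h.tail he
      refine ⟨e, t₁, h6, ?_, ?_⟩
      · rw [hvs, getD_concat, if_pos h6]
        exact h7
      · left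
        rw [hfr]
        rcases he' with h8 | h8
        · exact List.mem_append_left _ (List.mem_append_left _ h8)
        · exact List.mem_append_right _ h8

theorem Inv_run : ∀ (w : List Op) (s : St ℕ) (n' : ℕ), Inv s → legal w s.fr.length n' →
    Inv (run id s w) ∧ (run id s w).fr.length = n'
  | [], _, _, h, hl => ⟨h, hl⟩
  | .rot k :: w, s, n', h, hl => by
    have h1 := Inv_run w (step id s (.rot k)) n' (Inv_rot h k) (by
      change legal w (s.fr.rotate k).length n'
      rw [List.length_rotate]
      exact hl)
    exact h1
  | .vtx i a b :: w, s, n', h, hl => by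
    obtain ⟨ha, hb, hia, han, hl⟩ := hl
    have h1 := Inv_run w (step id s (.vtx i a b)) n' (Inv_vtx h i a b ha hb hia han) (by
      have e : (step id s (.vtx i a b)).fr.length = s.fr.length - a + b := by
        change (s.fr.take i ++ (List.range' s.m b).map id ++ s.fr.drop (i + a)).length = _
        rw [List.length_append, List.length_append, List.length_take, List.length_map,
          List.length_range', List.length_drop]
        omega
      rw [e]
      exact hl)
    exact h1

/-- the state after the first two vertices -/
def s₂ : St ℕ := ⟨[2, 3, 1], 4, [([], [0, 1]), ([0], [2, 3])]⟩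

theorem Inv_s₂ : Inv s₂ := by
  refine ⟨rfl, ?_, ?_, rfl, rfl, ?_, ?_⟩
  · decide
  · intro t e he
    rcases t with _ | _ | t
    · exact absurd he (by simp [s₂])
    · refine ⟨0, by omega, ?_⟩
      have : e = 0 := by simpa [s₂] using he
      subst this
      simp [s₂]
    · exact absurd he (by simp [s₂])
  · intro t h1 h2
    have : t = 1 := by
      change t < 2 at h2
      omega
    subst this
    simp [s₂]
  · intro t h1 h2
    have : t = 1 := by
      change t < 2 at h2
      omega
    subst this
    exact ⟨1, 0, by omega, by simp [s₂], Or.inl (by simp [s₂])⟩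

theorem sta : StaStmt := by
  intro w a hw ha
  have e1 : run id ⟨[], 0, []⟩ (closed w a) = step id (run id s₂ w) (.vtx 0 a 0) := by
    have e2 : closed w a = [.vtx 0 0 2, .vtx 0 1 2] ++ (w ++ [.vtx 0 a 0]) := rfl
    rw [e2, run, List.foldl_append, List.foldl_append]
    rfl
  obtain ⟨hI, hlen⟩ := Inv_run w s₂ a Inv_s₂ hw
  set s := run id s₂ w with hs
  have hf : fin w a = step id s (.vtx 0 a 0) := e1
  obtain ⟨p1, p2⟩ := step_perm s 0 a 0 hI.outs hI.ins
  have hvs : (fin w a).vs = s.vs ++ [(s.fr, [])] := by
    rw [hf]
    change s.vs ++ [((s.fr.drop 0).take a, (List.range' s.m 0).map id)] = _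
    rw [List.drop_zero, List.take_of_length_le (by omega)]
    rfl
  have hfr : (fin w a).fr = [] := by
    rw [hf]
    change s.fr.take 0 ++ (List.range' s.m 0).map id ++ s.fr.drop (0 + a) = []
    rw [List.drop_eq_nil_of_le (by omega)]
    rfl
  rw [← hf] at p1 p2
  have h2 := hI.len
  refine ⟨hfr, ?_, p1, ?_, ?_, ?_, ?_, ?_, ?_, ?_⟩
  · rw [hvs, List.length_append, List.length_singleton]; omega
  · rw [hfr, List.append_nil] at p2
    exact p2
  · intro t e he
    rw [hvs, getD_concat] at he
    split_ifs at he with h1 h2
    · obtain ⟨t', ht', he'⟩ := hI.lt t e he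
      refine ⟨t', ht', ?_⟩
      rw [hvs, getD_concat, if_pos (by omega)]
      exact he'
    · obtain ⟨t', ht', he'⟩ := hI.tail he
      refine ⟨t', by omega, ?_⟩
      rw [hvs, getD_concat, if_pos ht']
      exact he'
    · exact absurd he (by simp)
  · rw [hvs, List.getElem?_append_left (by omega)]
    exact hI.first
  · rw [hvs, List.getElem?_append_left (by omega)]
    exact hI.second
  · rw [hvs, getD_concat, List.length_append, List.length_singleton]
    rw [if_neg (by omega), if_pos (by omega)]
    exact ⟨by rw [hlen]; exact ha, rfl⟩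
  · intro t h1 h3
    rw [hvs, List.length_append, List.length_singleton] at h3
    rw [hvs, getD_concat, if_pos (by omega)]
    exact hI.inner t h1 (by omega)
  · intro t h1 h3
    rw [hvs, List.length_append, List.length_singleton] at h3
    obtain ⟨e, t₁, h4, h5, h6⟩ := hI.jump t h1 (by omega)
    rcases h6 with h6 | ⟨t₂, h7, h8, h9⟩
    · refine ⟨e, t₁, s.vs.length, h4, by omega, ?_, ?_⟩
      · rw [hvs, getD_concat, if_pos (by omega)]
        exact h5
      · rw [hvs, getD_concat, if_neg (by omega), if_pos rfl]
        exact h6
    · refine ⟨e, t₁, t₂, h4, h7, ?_, ?_⟩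
      · rw [hvs, getD_concat, if_pos (by omega)]
        exact h5
      · rw [hvs, getD_concat, if_pos h8]
        exact h9

end Pool.Agent.HAM.H64
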